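import Pool.Agent.Y172.Defs

/-!
Definitions: the Iitaka and the numerical dimension of a divisor on a normal projective variety, and
varieties with trivial canonical class.
-/

set_option autoImplicit false

open FF Pool.Agent.W602.GT Pool.Agent.Y172 Filter

namespace Pool.Agent.X180.OK

variable {K : Type} [Field K] [Algebra ℂ K] {N : ℕ}

/-- `m₀ K_X ~ 0`, `n` being the dimension of `X`: there is an `m₀`-canonical form `η ≠ 0` without zeros
and poles on `X`. -/
def TorsionCanonical (y : Fin (N + 1) → K) (n m₀ : ℕ) : Prop :=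
  0 < m₀ ∧ ∃ η : (Fin n → Derivation ℂ K K) → K, IsPluri m₀ η ∧ η ≠ 0 ∧
    ∀ P, IsPrimeDivisor y P → OrdEq P η 0

/-- `L'` is an effective `ℚ`-divisor with the same support as the effective `ℚ`-divisor `L`. -/
def SameSupport (y : Fin (N + 1) → K) (L L' : Place ℂ K → ℚ) : Prop :=
  ∀ P, IsPrimeDivisor y P → (L P = 0 → L' P = 0) ∧ (L P ≠ 0 → 0 < L' P)

/-- The dimension of the space of the sections of the divisor `D`: the rational functions `f` on `X`
with `div f + D ≥ 0`. -/
noncomputable def l (y : Fin (N + 1) → K) (D : Place ℂ K → ℚ) : ℕ :=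
  Module.finrank ℂ (Submodule.span ℂ
    {f : K | f = 0 ∨ ∀ P, IsPrimeDivisor y P → -(D P) ≤ P.ord f})

open scoped Classical in
/-- The Iitaka dimension `κ(L)`: it is `⊥` if `m L` has only the section `0` for all `m ≥ 1` such that
`m L` is integral, and otherwise the largest `k` such that the upper limit of `l (m L) / m ^ k` over
these `m` is positive. -/
noncomputable def iitakaDim (y : Fin (N + 1) → K) (L : Place ℂ K → ℚ) : WithBot ℕ :=
  if ∀ m : ℕ, 1 ≤ m → Integral y (m • L) → l y (m • L) = 0 then ⊥ else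
    ((sSup {k : ℕ | 0 < limsup (fun m : ℕ => (l y (m • L) : ENNReal) / (m : ENNReal) ^ k)
      (atTop ⊓ 𝓟 {m : ℕ | 1 ≤ m ∧ Integral y (m • L)})} : ℕ) : WithBot ℕ)

/-- The numerical dimension of `L` with respect to the divisor `A`: the upper limit of
`log (l (m L + A)) / log m` over the `m ≥ 1` such that `m L + A` is integral. -/
noncomputable def nuDim (y : Fin (N + 1) → K) (L A : Place ℂ K → ℚ) : EReal :=
  limsup (fun m : ℕ => ENNReal.log (l y (m • L + A) : ENNReal) / (Real.log m : EReal))
    (atTop ⊓ 𝓟 {m : ℕ | 1 ≤ m ∧ Integral y (m • L + A)})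

end Pool.Agent.X180.OK
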