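import Pool.Agent.X180.OK.LogNon
import Pool.Agent.Y172.Dim4

/-!
Divisors whose numerical dimension is at most the lower bound.
-/

set_option autoImplicit false
set_option linter.overlappingInstances false

open FF Pool.Agent.W602.GT Pool.Agent.Y172 Pool.Agent.Y191
open Pool.Agent.X180.OP
open Pool.Agent.X180.TP (dims exists_idx)
open Pool.Agent.X180.Tow (HasForms dn trdeg_dn hor_nonneg hor_le)
open Pool.Agent.X180.Iso (hor)
open Pool.Agent.X180.OJ (JointFibres IsTower)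

namespace Pool.Agent.X180.OK

variable {K : Type} [Field K] [Algebra ℂ K] {N n : ℕ}

/-- **Lower bound**, with the sections. -/
theorem bound_ge {l c k m₀ : ℕ}
    {E : Fin (l + 1) → IntermediateField ℂ K} {D : Fin (l + 1) → ℕ} {e lam : Fin l → ℕ}
    {r s : Fin c → ℕ} {y : Fin (N + 1) → K} {Δ B L : Place ℂ K → ℚ}
    (hy : IsPair y (D (Fin.last l) + ∑ j, r j) B) (hΔ : Effective y Δ) (hL : Effective y L)
    (hK : LogTrivial y (D (Fin.last l) + ∑ j, r j) m₀ Δ)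
    (hB : ∀ P, IsPrimeDivisor y P → Δ P ≤ B P ∧ (L P = 0 → B P = Δ P))
    (hT : IsTower {P | IsPrimeDivisor y P} (fun P => (B P : ℝ)) E D e lam)
    {w : ∀ j, Fin (s j) → ℚ}
    (hF : Fibres y (D (Fin.last l) + ∑ j, r j) B {P | IsPrimeDivisor y P ∧ B P < 1}
      (E (Fin.last l)) r s w)
    (hbase : ∀ lam' : ℕ, HasForms (D 0 + (∑ i, e i + ∑ j, r j)) {P | IsPrimeDivisor y P}
      (hor (E 0) fun P => (B P : ℝ)) (E 0) (∑ i, e i + ∑ j, r j) lam' →
      KodairaGe (D 0 + (∑ i, e i + ∑ j, r j)) {P | IsPrimeDivisor y P}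
        (fun P => (B P : ℝ)) (k + lam')) :
    (∀ j, (r j + 1 : ℚ) ≤ ∑ i, w j i) ∧ ∀ L', SameSupport y L L' →
      IsPair y (D (Fin.last l) + ∑ j, r j) (Δ + L') ∧
      KodairaGe (D (Fin.last l) + ∑ j, r j) {P | IsPrimeDivisor y P}
        (fun P => ((Δ + L') P : ℝ)) (k + ∑ i, lam i + big r s w) := by
  have hnon := OJ.tow_non hy hT hF hbase
  have hws : ∀ j, (r j + 1 : ℚ) ≤ ∑ i, w j i := by
    by_contra hcon
    push Not at hcon
    have h1 := (hnon.2 hcon).1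
    have h2 := OC.kod_of_ge hy (log_zero hK fun P hP => (hB P hP).1)
    rw [h1] at h2
    exact absurd h2 (by simp)
  refine ⟨hws, fun L' hL' => ?_⟩
  have h1 := hbase _ (OJ.tow_top (S := {P | IsPrimeDivisor y P}) (fun _ h => h) hy hT hF hws)
  have hn : D (Fin.last l) + ∑ j, r j = D 0 + (∑ i, e i + ∑ j, r j) := by
    rw [dims fun i => (hT.2 i).2.1, add_assoc]
  rw [← hn, ← add_assoc k] at h1
  obtain ⟨c', hc'⟩ := log_bound hy.2.2 hΔ (fun P hP => (hB P hP).2) hL'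
  have hLe := same_eff hL hL'
  have hL0 : ∀ P, IsPrimeDivisor y P → 0 ≤ L' P := hLe.1
  have hfin : {P | IsPrimeDivisor y P ∧ (Δ + L') P ≠ 0}.Finite := by
    refine (hΔ.2.union hLe.2).subset ?_
    rintro P ⟨hP, hne⟩
    by_cases h1 : Δ P = 0
    · right
      exact ⟨hP, fun h2 => hne (by rw [Pi.add_apply, h1, h2, add_zero])⟩
    · left
      exact ⟨hP, h1⟩
  exact ⟨⟨hy.1, hy.2.1, ⟨fun P hP => add_nonneg (hΔ.1 P hP) (hL0 P hP), hfin⟩⟩,
    log_scale hy.2.1 hK hL0 hc' h1⟩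

/-- the Kodaira dimension is at most the numerical dimension -/
theorem kod_num {g : ℕ} {y : Fin (N + 1) → K} {Δ : Place ℂ K → ℚ} (hy : IsPair y n Δ)
    (hK : KodairaGe n {P | IsPrimeDivisor y P} (fun P => (Δ P : ℝ)) g) :
    ∃ κ : ℕ, g ≤ κ ∧ kodairaDim y n Δ = (κ : WithBot ℕ) ∧
      ∀ A, Effective y A → Integral y A → (κ : EReal) ≤ numericalDim y n Δ A := by
  have hu : IsTranscendenceBasis (⊤ : IntermediateField ℂ K)
      (fun s : (Σ j : Fin 0, Fin (Fin.elim0 j : ℕ)) => (Fin.elim0 s.1 : K)) := by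
    have : IsEmpty (Σ j : Fin 0, Fin (Fin.elim0 j : ℕ)) := ⟨fun s => s.1.elim0⟩
    have h6 : AlgebraicIndependent (⊤ : IntermediateField ℂ K)
        (fun s : (Σ j : Fin 0, Fin (Fin.elim0 j : ℕ)) => (Fin.elim0 s.1 : K)) :=
      algebraicIndependent_empty_type
    refine h6.isTranscendenceBasis_iff_isAlgebraic.2 ⟨fun z => ?_⟩
    have h7 : IsAlgebraic (⊤ : IntermediateField ℂ K) z :=
      isAlgebraic_algebraMap (⟨z, trivial⟩ : (⊤ : IntermediateField ℂ K))
    exact h7.extendScalars (algebraMap (⊤ : IntermediateField ℂ K) _).injective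
  obtain ⟨-, E, hE, h2⟩ := lc_sec (c := 0) (L := (⊤ : IntermediateField ℂ K)) (K' := K)
    (r := fun j : Fin 0 => Fin.elim0 j) (q := fun j : Fin 0 => Fin.elim0 j)
    (A := fun j : Fin 0 => Fin.elim0 j) (w := fun j : Fin 0 => Fin.elim0 j) hy.1 hy.2.1 hy.2.2
    (fun j => j.elim0) hu (fun j => j.elim0) (fun j => j.elim0) (fun j => j.elim0) (by
      intro a P g hg
      have : IsEmpty (Σ j : Fin 0, Fin (Fin.elim0 j : ℕ)) := ⟨fun s => s.1.elim0⟩
      exact absurd hg (OP.no_irred g))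
  obtain ⟨m0, hm0, ω, hω, E', h4, h5⟩ := hK
  obtain ⟨κ, h6, h7, h8⟩ := dims2 (k := n) hy.2.2 hE (h2 n (fun j => j.elim0) (by simp))
    hm0 (ω := ω) (fun j => ⟨(hω j).1, fun P hP G hG => by
      rcases (hω j).2 P hP (hP.divisorial hy.1 hy.2.1) G hG with h6 | h6
      · exact Or.inl h6
      · right
        rw [Pi.smul_apply, nsmul_eq_mul]
        have h7 : ((-(m0 * Δ P) : ℚ) : ℝ) ≤ (((P.ord (ω j G) : ℤ) : ℚ) : ℝ) := by
          push_cast
          exact h6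
        exact_mod_cast h7⟩) h4 h5
  exact ⟨κ, h6, h7, fun A hA hA' => (h8 A hA hA').1⟩

/-- numerical dimension at most `p` and at least `p` sections -/
theorem kod_eq {g p : ℕ} {y : Fin (N + 1) → K} {Δ : Place ℂ K → ℚ} (hy : IsPair y n Δ)
    (hK : KodairaGe n {P | IsPrimeDivisor y P} (fun P => (Δ P : ℝ)) g) (hp : p ≤ g)
    (hν : ∀ A, Effective y A → Integral y A → numericalDim y n Δ A ≤ (p : EReal)) :
    g = p ∧ kodairaDim y n Δ = (p : WithBot ℕ) ∧
      ∀ A, Effective y A → Integral y A → numericalDim y n Δ A = (p : EReal) := by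
  obtain ⟨κ, h1, h2, h3⟩ := kod_num hy hK
  have hzero : Effective y (0 : Place ℂ K → ℚ) :=
    ⟨fun _ _ => le_rfl, Set.finite_empty.subset (by rintro P ⟨-, h⟩; exact h rfl)⟩
  have hzint : Integral y (0 : Place ℂ K → ℚ) := fun P _ => ⟨0, by simp⟩
  have h4 : (κ : EReal) ≤ (p : EReal) := (h3 0 hzero hzint).trans (hν 0 hzero hzint)
  have h5 : κ ≤ p := by exact_mod_cast h4
  have h6 : κ = p := le_antisymm h5 (hp.trans h1)
  subst h6
  exact ⟨le_antisymm h1 hp, h2, fun A hA hA' => le_antisymm (hν A hA hA') (h3 A hA hA')⟩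

/-- trivial canonical class -/
theorem log_of_torsion {y : Fin (N + 1) → K} {m₀ : ℕ} (h : TorsionCanonical y n m₀) :
    LogTrivial y n m₀ 0 := by
  obtain ⟨h1, η, h2, h3, h4⟩ := h
  refine ⟨h1, η, h2, h3, fun P hP => ?_⟩
  rw [Pi.zero_apply, mul_zero, neg_zero]
  exact h4 P hP

theorem eff_zero {y : Fin (N + 1) → K} : Effective y (0 : Place ℂ K → ℚ) :=
  ⟨fun _ _ => le_rfl, Set.finite_empty.subset (by rintro P ⟨-, h⟩; exact h rfl)⟩

/-- **Divisors of small numerical dimension on varieties with trivial canonical class.** -/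
theorem iso_tow {l c k p : ℕ}
    {E : Fin (l + 1) → IntermediateField ℂ K} {D : Fin (l + 1) → ℕ} {e lam : Fin l → ℕ}
    {r s : Fin c → ℕ} {y : Fin (N + 1) → K} {L : Place ℂ K → ℚ}
    (hy : NormalModel y) (hn : Algebra.trdeg ℂ K = (D (Fin.last l) + ∑ j, r j : ℕ))
    (hK : TorsionCanonical y (D (Fin.last l) + ∑ j, r j) 1) (hL : Effective y L)
    (hT : IsTower {P | IsPrimeDivisor y P} (fun P => (L P : ℝ)) E D e lam)
    {w : ∀ j, Fin (s j) → ℚ}
    (hF : Fibres y (D (Fin.last l) + ∑ j, r j) L {P | IsPrimeDivisor y P ∧ L P < 1}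
      (E (Fin.last l)) r s w)
    (hbase : ∀ lam' : ℕ, HasForms (D 0 + (∑ i, e i + ∑ j, r j)) {P | IsPrimeDivisor y P}
      (hor (E 0) fun P => (L P : ℝ)) (E 0) (∑ i, e i + ∑ j, r j) lam' →
      KodairaGe (D 0 + (∑ i, e i + ∑ j, r j)) {P | IsPrimeDivisor y P}
        (fun P => (L P : ℝ)) (k + lam')) (hp : p ≤ k + ∑ i, lam i + big r s w) :
    (∀ j, (r j + 1 : ℚ) ≤ ∑ i, w j i) ∧ ∀ L', SameSupport y L L' →
      (∀ A, Effective y A → Integral y A → nuDim y L' A ≤ (p : EReal)) →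
      k + ∑ i, lam i + big r s w = p ∧ iitakaDim y L' = (p : WithBot ℕ) ∧
      ∀ A, Effective y A → Integral y A → nuDim y L' A = (p : EReal) := by
  obtain ⟨h1, h2⟩ := bound_ge (B := L) (Δ := 0) ⟨hy, hn, hL⟩ eff_zero hL (log_of_torsion hK)
    (fun P hP => ⟨hL.1 P hP, fun h => h⟩) hT hF hbase
  refine ⟨h1, fun L' hL' hν => ?_⟩
  obtain ⟨h3, h4⟩ := h2 L' hL'
  rw [zero_add] at h3
  simp only [zero_add] at h4
  obtain ⟨h5, h6, h7⟩ := kod_eq h3 h4 hp fun A hA hA' => by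
    rw [numerical_eq hn hK]
    exact hν A hA hA'
  rw [← kodaira_eq hn hK]
  exact ⟨h5, h6, fun A hA hA' => by rw [← numerical_eq hn hK]; exact h7 A hA hA'⟩

end Pool.Agent.X180.OK
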