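import Pool.Agent.Y172.Defs

/-!
Definition: log Calabi-Yau pairs.
-/

set_option autoImplicit false

open FF Pool.Agent.W602.GT Pool.Agent.Y172

namespace Pool.Agent.X180.OK

variable {K : Type} [Field K] [Algebra ℂ K] {N : ℕ}

/-- `m₀ (K_X + Δ) ~ 0`, `n` being the dimension of `X`: there is an `m₀`-canonical form `η ≠ 0` on `X`
whose divisor is `- m₀ Δ`. -/
def LogTrivial (y : Fin (N + 1) → K) (n m₀ : ℕ) (Δ : Place ℂ K → ℚ) : Prop :=
  0 < m₀ ∧ ∃ η : (Fin n → Derivation ℂ K K) → K, IsPluri m₀ η ∧ η ≠ 0 ∧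
    ∀ P, IsPrimeDivisor y P → OrdEq P η (-(m₀ * Δ P))

end Pool.Agent.X180.OK
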