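import Pool.Agent.X180.OK.LogTow

/-!
Effective divisors on log Calabi-Yau pairs: lower bounds of the Iitaka dimension.
-/

set_option autoImplicit false
set_option linter.overlappingInstances false

open FF Pool.Agent.W602.GT Pool.Agent.Y172 Pool.Agent.Y191
open Pool.Agent.X180.OP
open Pool.Agent.X180.TP (dims exists_idx)
open Pool.Agent.X180.Tow (HasForms dn trdeg_dn hor_nonneg hor_le)
open Pool.Agent.X180.Iso (hor)
open Pool.Agent.X180.OJ (JointFibres IsTower)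

namespace Pool.Agent.X180.OK

variable {K : Type} [Field K] [Algebra ℂ K] {N n : ℕ}

/-- the form with the divisor `- m₀ Δ` gives a section of `K_X + B` -/
theorem log_zero {y : Fin (N + 1) → K} {m₀ : ℕ} {Δ : Place ℂ K → ℚ} (hK : LogTrivial y n m₀ Δ)
    {B : Place ℂ K → ℚ} (hB : ∀ P, IsPrimeDivisor y P → Δ P ≤ B P) :
    KodairaGe n {P | IsPrimeDivisor y P} (fun P => (B P : ℝ)) 0 := by
  obtain ⟨hm, η, hη, hη0, hηo⟩ := hK
  obtain ⟨D, hD⟩ : ∃ D, η D ≠ 0 := by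
    by_contra h
    push Not at h
    exact hη0 (funext h)
  refine ⟨m₀, hm, fun _ => η, fun _ => ⟨hη, fun P hP _ E hE => ?_⟩, D, hD,
    algebraicIndependent_empty_type⟩
  rcases (hηo P hP).1 E hE with h1 | h1
  · exact Or.inl h1
  · right
    have h2 := (Rat.cast_le (K := ℝ)).2 h1
    push_cast at h2
    have h3 := (Rat.cast_le (K := ℝ)).2 (hB P hP)
    have h4 : (m₀ : ℝ) * (Δ P : ℝ) ≤ m₀ * (B P : ℝ) :=
      mul_le_mul_of_nonneg_left h3 (Nat.cast_nonneg _)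
    linarith

/-- from `K_X + B` to `K_X + Δ + L` -/
theorem log_scale {y : Fin (N + 1) → K} {m₀ k : ℕ} (hn : Algebra.trdeg ℂ K = n)
    {Δ : Place ℂ K → ℚ} (hK : LogTrivial y n m₀ Δ)
    {B L : Place ℂ K → ℚ} (hL : ∀ P, IsPrimeDivisor y P → 0 ≤ L P) {c : ℕ}
    (hc : ∀ P, IsPrimeDivisor y P → B P ≤ Δ P + c * L P)
    (h : KodairaGe n {P | IsPrimeDivisor y P} (fun P => (B P : ℝ)) k) :
    KodairaGe n {P | IsPrimeDivisor y P} (fun P => ((Δ + L) P : ℝ)) k := by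
  obtain ⟨hm, η, hη, hη0, hηo⟩ := hK
  obtain ⟨M, hM, ω, hω, D, hD, hDi⟩ := h
  obtain ⟨t, Et, ht, hEt⟩ := exists_crd hn
  have hE0 : η Et ≠ 0 := by
    intro h0
    apply hη0
    funext E
    rw [pluri_coord ht hEt hη E, h0, mul_zero]
    rfl
  have hd : (Matrix.of fun i j => (D i) (t j)).det ≠ 0 := by
    intro hd
    apply hD
    rw [pluri_coord ht hEt (hω 0).1 D, hd, zero_pow hM.ne', zero_mul]
  have hηD : η D ≠ 0 := by
    rw [pluri_coord ht hEt hη D]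
    exact mul_ne_zero (pow_ne_zero _ hd) hE0
  obtain ⟨q, hq⟩ : ∃ q, q = M * c := ⟨_, rfl⟩
  refine ⟨M + q * m₀, by omega, fun b E => ω b E * η E ^ q, fun b =>
    ⟨isPluri_mul (hω b).1 (pow_pluri hη q), fun P hP hd' E hE => ?_⟩, D,
    mul_ne_zero hD (pow_ne_zero _ hηD), ?_⟩
  · change ω b E * η E ^ q = 0 ∨ _ ≤ ((P.ord (ω b E * η E ^ q) : ℤ) : ℝ)
    rcases (hω b).2 P hP hd' E hE with h1 | h1
    · exact Or.inl (by rw [h1, zero_mul])
    by_cases h2 : ω b E = 0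
    · exact Or.inl (by rw [h2, zero_mul])
    by_cases h3 : η E ^ q = 0
    · exact Or.inl (by rw [h3, mul_zero])
    right
    have h4 : -((q : ℝ) * (m₀ * (Δ P : ℝ))) ≤ ((P.ord (η E ^ q) : ℤ) : ℝ) := by
      rw [P.ord_pow]
      by_cases h5 : η E = 0
      · by_cases h6 : q = 0
        · rw [h6]
          simp
        · exact absurd (by rw [h5, zero_pow h6]) h3
      rcases (hηo P hP).1 E hE with h6 | h6
      · exact absurd h6 h5
      · have h7 := (Rat.cast_le (K := ℝ)).2 h6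
        push_cast at h7 ⊢
        have h8 := mul_le_mul_of_nonneg_left h7 (Nat.cast_nonneg (α := ℝ) q)
        linarith
    have h6 : ((B P : ℚ) : ℝ) ≤ (Δ P : ℝ) + c * (L P : ℝ) := by
      have := (Rat.cast_le (K := ℝ)).2 (hc P hP)
      push_cast at this
      exact this
    have h7 : (0 : ℝ) ≤ (L P : ℝ) := Rat.cast_nonneg.2 (hL P hP)
    have hM' : (0 : ℝ) ≤ M := Nat.cast_nonneg _
    have hm' : (1 : ℝ) ≤ m₀ := by exact_mod_cast hm
    have hc' : (0 : ℝ) ≤ c := Nat.cast_nonneg _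
    have h8 : (M : ℝ) * (B P : ℝ) + (q : ℝ) * (m₀ * (Δ P : ℝ)) ≤
        ((M + q * m₀ : ℕ) : ℝ) * ((Δ P : ℝ) + (L P : ℝ)) := by
      rw [hq]
      push_cast
      have h9 := mul_le_mul_of_nonneg_left h6 hM'
      have h10 : (M : ℝ) * c * (L P : ℝ) ≤ M * c * (L P : ℝ) * m₀ :=
        le_mul_of_one_le_right (mul_nonneg (mul_nonneg hM' hc') h7) hm'
      have h11 : 0 ≤ (M : ℝ) * (L P : ℝ) := mul_nonneg hM' h7
      nlinarith
    rw [P.ord_mul h2 h3]
    have e2 : (((Δ + L) P : ℚ) : ℝ) = (Δ P : ℝ) + (L P : ℝ) := by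
      rw [Pi.add_apply]
      push_cast
      ring
    change -(((M + q * m₀ : ℕ) : ℝ) * (((Δ + L) P : ℚ) : ℝ)) ≤ _
    rw [e2]
    push_cast at h8 ⊢
    linarith
  · have h1 := pow_ne_zero q hηD
    have e1 : (fun i : Fin k => (ω i.succ D * η D ^ q) / (ω 0 D * η D ^ q)) =
        fun i : Fin k => ω i.succ D / ω 0 D := by
      funext i
      rw [mul_div_mul_right _ _ h1]
    rw [e1]
    exact hDi

/-- bound for a divisor with the support in `Supp L` -/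
theorem log_bound {y : Fin (N + 1) → K} {Δ B L L' : Place ℂ K → ℚ} (hB : Effective y B)
    (hΔ : Effective y Δ)
    (hBL : ∀ P, IsPrimeDivisor y P → L P = 0 → B P = Δ P)
    (hs : SameSupport y L L') :
    ∃ c : ℕ, ∀ P, IsPrimeDivisor y P → B P ≤ Δ P + c * L' P := by
  classical
  obtain ⟨c, hc⟩ : ∃ c : ℕ, ∀ P ∈ hB.2.toFinset, B P / L' P ≤ c := by
    obtain ⟨M, hM⟩ := (hB.2.toFinset.finite_toSet.image fun P => B P / L' P).bddAbove
    obtain ⟨c, hc⟩ := exists_nat_ge M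
    exact ⟨c, fun P hP => (hM ⟨P, hP, rfl⟩).trans hc⟩
  refine ⟨c, fun P hP => ?_⟩
  by_cases h0 : L P = 0
  · rw [hBL P hP h0, (hs P hP).1 h0, mul_zero, add_zero]
  · have h1 := (hs P hP).2 h0
    have h3 := hΔ.1 P hP
    by_cases h4 : B P = 0
    · rw [h4]
      positivity
    have h2 := hc P (by
      rw [Set.Finite.mem_toFinset]
      exact ⟨hP, h4⟩)
    rw [div_le_iff₀ h1] at h2
    linarith

/-- **Lower bound.** -/
theorem bound_log {l c k m₀ : ℕ}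
    {E : Fin (l + 1) → IntermediateField ℂ K} {D : Fin (l + 1) → ℕ} {e lam : Fin l → ℕ}
    {r s : Fin c → ℕ} {y : Fin (N + 1) → K} {Δ B L : Place ℂ K → ℚ}
    (hy : IsPair y (D (Fin.last l) + ∑ j, r j) B) (hΔ : Effective y Δ) (hL : Effective y L)
    (hK : LogTrivial y (D (Fin.last l) + ∑ j, r j) m₀ Δ)
    (hB : ∀ P, IsPrimeDivisor y P → Δ P ≤ B P ∧ (L P = 0 → B P = Δ P))
    (hT : IsTower {P | IsPrimeDivisor y P} (fun P => (B P : ℝ)) E D e lam)
    {w : ∀ j, Fin (s j) → ℚ}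
    (hF : Fibres y (D (Fin.last l) + ∑ j, r j) B {P | IsPrimeDivisor y P ∧ B P < 1}
      (E (Fin.last l)) r s w)
    (hbase : ∀ lam' : ℕ, HasForms (D 0 + (∑ i, e i + ∑ j, r j)) {P | IsPrimeDivisor y P}
      (hor (E 0) fun P => (B P : ℝ)) (E 0) (∑ i, e i + ∑ j, r j) lam' →
      KodairaGe (D 0 + (∑ i, e i + ∑ j, r j)) {P | IsPrimeDivisor y P}
        (fun P => (B P : ℝ)) (k + lam')) :
    (∀ j, (r j + 1 : ℚ) ≤ ∑ i, w j i) ∧ ∀ L', SameSupport y L L' →
      ((k + ∑ i, lam i + big r s w : ℕ) : WithBot ℕ) ≤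
        kodairaDim y (D (Fin.last l) + ∑ j, r j) (Δ + L') := by
  have hnon := OJ.tow_non hy hT hF hbase
  have hws : ∀ j, (r j + 1 : ℚ) ≤ ∑ i, w j i := by
    by_contra hcon
    push Not at hcon
    have h1 := (hnon.2 hcon).1
    have h2 := OC.kod_of_ge hy (log_zero hK fun P hP => (hB P hP).1)
    rw [h1] at h2
    exact absurd h2 (by simp)
  refine ⟨hws, fun L' hL' => ?_⟩
  have h1 := hbase _ (OJ.tow_top (S := {P | IsPrimeDivisor y P}) (fun _ h => h) hy hT hF hws)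
  have hn : D (Fin.last l) + ∑ j, r j = D 0 + (∑ i, e i + ∑ j, r j) := by
    rw [dims fun i => (hT.2 i).2.1, add_assoc]
  rw [← hn, ← add_assoc k] at h1
  obtain ⟨c', hc'⟩ := log_bound hy.2.2 hΔ (fun P hP => (hB P hP).2) hL'
  have hLe := same_eff hL hL'
  have hL0 : ∀ P, IsPrimeDivisor y P → 0 ≤ L' P := hLe.1
  have hfin : {P | IsPrimeDivisor y P ∧ (Δ + L') P ≠ 0}.Finite := by
    refine (hΔ.2.union hLe.2).subset ?_
    rintro P ⟨hP, hne⟩
    by_cases h1 : Δ P = 0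
    · right
      exact ⟨hP, fun h2 => hne (by rw [Pi.add_apply, h1, h2, add_zero])⟩
    · left
      exact ⟨hP, h1⟩
  exact OC.kod_of_ge ⟨hy.1, hy.2.1, ⟨fun P hP => add_nonneg (hΔ.1 P hP) (hL0 P hP), hfin⟩⟩
    (log_scale hy.2.1 hK hL0 hc' h1)

end Pool.Agent.X180.OK
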