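import Pool.Agent.X180.OK.LogDefs
import Pool.Agent.X180.OK.Non

/-!
Effective divisors on log Calabi-Yau pairs.
-/

set_option autoImplicit false
set_option linter.overlappingInstances false

open FF Pool.Agent.W602.GT Pool.Agent.Y172 Pool.Agent.Y191
open Pool.Agent.X180.OP
open Pool.Agent.X180.TP (dims exists_idx)
open Pool.Agent.X180.Tow (HasForms dn trdeg_dn hor_nonneg hor_le)
open Pool.Agent.X180.Iso (hor)
open Pool.Agent.X180.OJ (JointFibres IsTower)

namespace Pool.Agent.X180.OK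

variable {K : Type} [Field K] [Algebra ℂ K] {N n : ℕ}

/-- `K_X + Δ` is pseudo-effective -/
theorem psef_of_log {y : Fin (N + 1) → K} {m₀ : ℕ} {Δ : Place ℂ K → ℚ}
    (hK : LogTrivial y n m₀ Δ)
    {L A : Place ℂ K → ℚ} (hA : Effective y A) : OP.PseudoEffective y n ((Δ + L) - L) A := by
  obtain ⟨hm, η, hη, hη0, hηo⟩ := hK
  intro m₁
  refine ⟨(m₁ + 1) * m₀, ?_, fun E => η E ^ (m₁ + 1), ⟨pow_pluri hη (m₁ + 1), ?_⟩, ?_⟩
  · nlinarith
  · intro P hP E hE
    rcases (hηo P hP).1 E hE with h1 | h1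
    · left
      change η E ^ (m₁ + 1) = 0
      rw [h1, zero_pow (by omega)]
    · right
      have h2 := hA.1 P hP
      rw [P.ord_pow]
      have e1 : ((Δ + L) - L) = Δ := by
        funext P
        simp
      rw [e1]
      change -((((m₁ + 1) * m₀ : ℕ) • Δ) P + A P) ≤ ((((m₁ + 1 : ℕ) : ℤ) * P.ord (η E) : ℤ) : ℚ)
      have h7 : ((m₁ + 1 : ℕ) : ℚ) * (-(m₀ * Δ P)) ≤ ((m₁ + 1 : ℕ) : ℚ) * ((P.ord (η E) : ℤ) : ℚ) :=
        mul_le_mul_of_nonneg_left h1 (Nat.cast_nonneg _)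
      rw [Pi.smul_apply, nsmul_eq_mul]
      push_cast at h7 ⊢
      linarith
  · intro h0
    apply hη0
    funext E
    have h1 := congrFun h0 E
    exact pow_eq_zero_iff (n := m₁ + 1) (by omega) |>.1 h1

/-- **Towers over log Calabi-Yau pairs.** -/
theorem tow_log {N l c m₀ : ℕ}
    {E : Fin (l + 1) → IntermediateField ℂ K} {D : Fin (l + 1) → ℕ} {e : Fin l → ℕ}
    {r s : Fin c → ℕ} {y : Fin (N + 1) → K} {Δ L A : Place ℂ K → ℚ}
    (hy : NormalModel y) (hn : Algebra.trdeg ℂ K = (D (Fin.last l) + ∑ j, r j : ℕ))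
    (hΔ : Effective y Δ)
    (hK : LogTrivial y (D (Fin.last l) + ∑ j, r j) m₀ Δ) (hL : Effective y L)
    (hA : Effective y A)
    (hT : IsTower (Relevant y (D (Fin.last l) + ∑ j, r j) (Δ + L) L A) (fun P => (Δ P : ℝ))
      E D e e)
    {w : ∀ j, Fin (s j) → ℚ}
    (hF : Fibres y (D (Fin.last l) + ∑ j, r j) (Δ + L)
      {P | P ∈ Relevant y (D (Fin.last l) + ∑ j, r j) (Δ + L) L A ∧ Δ P < 1}
      (E (Fin.last l)) r s w)
    (hbase : ∀ lam' : ℕ, HasForms (D 0 + (∑ i, e i + ∑ j, r j))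
      (Relevant y (D (Fin.last l) + ∑ j, r j) (Δ + L) L A)
      (hor (E 0) fun P => (Δ P : ℝ)) (E 0) (∑ i, e i + ∑ j, r j) lam' →
      KodairaGe (D 0 + (∑ i, e i + ∑ j, r j))
        (Relevant y (D (Fin.last l) + ∑ j, r j) (Δ + L) L A)
        (fun P => (Δ P : ℝ)) (D 0 + lam')) :
    (∀ j, (r j + 1 : ℚ) ≤ ∑ i, w j i) ∧ ∀ L', SameSupport y L L' →
      kodairaDim y (D (Fin.last l) + ∑ j, r j) (Δ + L') =
        ((D (Fin.last l) + big r s w : ℕ) : WithBot ℕ) ∧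
      ∀ A, Effective y A → Integral y A →
        numericalDim y (D (Fin.last l) + ∑ j, r j) (Δ + L') A =
          ((D (Fin.last l) + big r s w : ℕ) : EReal) := by
  have hrel : ∀ P ∈ Relevant y (D (Fin.last l) + ∑ j, r j) (Δ + L) L A, L P = 0 := by
    intro P hP
    by_contra h
    exact hP.2 (Or.inl h)
  have h0 : ∀ P ∈ Relevant y (D (Fin.last l) + ∑ j, r j) (Δ + L) L A,
      (Δ P : ℝ) = (((Δ + L) P : ℚ) : ℝ) := fun P hP => by
    rw [Pi.add_apply, hrel P hP, add_zero]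
  have hΔL : Effective y (Δ + L) := by
    refine ⟨fun P hP => add_nonneg (hΔ.1 P hP) (hL.1 P hP), (hΔ.2.union hL.2).subset ?_⟩
    rintro P ⟨hP, hne⟩
    by_cases h1 : Δ P = 0
    · right
      exact ⟨hP, fun h2 => hne (by rw [Pi.add_apply, h1, h2, add_zero])⟩
    · left
      exact ⟨hP, h1⟩
  have key := OJ.tow_ab ⟨hy, hn, hΔL⟩ hL hA (psef_of_log hK hA)
    (tower_congr h0 hT) (fun _ => rfl) (w := w) ?_ fun lam' h1 => ?_
  · refine ⟨key.1, fun L' hL' => key.2 (Δ + L') fun P hP => ⟨fun h => ?_, fun h => ?_⟩⟩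
    · rw [Pi.add_apply, Pi.add_apply, h, (hL' P hP).1 h]
    · have := (hL' P hP).2 h
      rw [Pi.add_apply, Pi.add_apply]
      linarith
  · have e1 : {P | P ∈ Relevant y (D (Fin.last l) + ∑ j, r j) (Δ + L) L A ∧ (Δ + L) P < 1} =
        {P | P ∈ Relevant y (D (Fin.last l) + ∑ j, r j) (Δ + L) L A ∧ Δ P < 1} := by
      ext P
      constructor
      · rintro ⟨h1, h2⟩
        refine ⟨h1, ?_⟩
        rwa [Pi.add_apply, hrel P h1, add_zero] at h2
      · rintro ⟨h1, h2⟩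
        refine ⟨h1, ?_⟩
        rwa [Pi.add_apply, hrel P h1, add_zero]
    rw [e1]
    exact hF
  · refine kod_congr h0 (hbase lam' (h1.mono fun P hP => ?_))
    unfold hor
    split_ifs
    · exact (h0 P hP).ge
    · exact le_rfl

end Pool.Agent.X180.OK
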