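import Pool.Agent.X180.OK.Triv
import Pool.Agent.X180.OJ.PairBase

/-!
Divisors on varieties with trivial canonical class: towers.
-/

set_option autoImplicit false
set_option linter.overlappingInstances false

open FF Pool.Agent.W602.GT Pool.Agent.Y172 Pool.Agent.Y191
open Pool.Agent.X180.OP
open Pool.Agent.X180.TP (dims exists_idx)
open Pool.Agent.X180.Tow (HasForms dn trdeg_dn hor_nonneg hor_le)
open Pool.Agent.X180.Iso (hor)
open Pool.Agent.X180.OJ (JointFibres IsTower)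

namespace Pool.Agent.X180.OK

variable {K : Type} [Field K] [Algebra ℂ K]

theorem joint_congr {S : Set (Place ℂ K)} {δ δ' : Place ℂ K → ℝ} (hδ : ∀ P ∈ S, δ P = δ' P)
    {E L : IntermediateField ℂ K} {e lam : ℕ} (h : JointFibres S δ E L e lam) :
    JointFibres S δ' E L e lam := by
  obtain ⟨c, d, h', r, s, w, he, hl, hw, K', _, _, _, _, _, A, u, M, a, hA, hess, hM, hME, huE,
    hML, ha, hk, hH⟩ := h
  refine ⟨c, d, h', r, s, w, he, hl, hw, K', _, _, _, _, ‹_›, A, u, M, a, hA, hess, hM, hME, huE,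
    hML, ha, hk, ?_⟩
  intro P hP hlt
  rw [← hδ P hP] at hlt ⊢
  exact hH P hP hlt

theorem tower_congr {S : Set (Place ℂ K)} {δ δ' : Place ℂ K → ℝ} (hδ : ∀ P ∈ S, δ P = δ' P)
    {l : ℕ} {E : Fin (l + 1) → IntermediateField ℂ K} {D : Fin (l + 1) → ℕ} {e lam : Fin l → ℕ}
    (h : IsTower S δ E D e lam) : IsTower S δ' E D e lam :=
  ⟨h.1, fun i => ⟨(h.2 i).1, (h.2 i).2.1, joint_congr hδ (h.2 i).2.2⟩⟩

theorem kod_congr {S : Set (Place ℂ K)} {δ δ' : Place ℂ K → ℝ} (hδ : ∀ P ∈ S, δ P = δ' P)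
    {d k : ℕ} (h : KodairaGe d S δ k) : KodairaGe d S δ' k := by
  obtain ⟨N, hN, ω, h1, h2⟩ := h
  refine ⟨N, hN, ω, fun j => ⟨(h1 j).1, fun P hP hd D hD => ?_⟩, h2⟩
  rw [← hδ P hP]
  exact (h1 j).2 P hP hd D hD

/-- the relevant prime divisors are not in the support of `L` -/
theorem rel_zero {N n : ℕ} {y : Fin (N + 1) → K} {L A : Place ℂ K → ℚ} {P : Place ℂ K}
    (hP : P ∈ Relevant y n L L A) : L P = 0 := by
  by_contra h
  exact hP.2 (Or.inl h)

/-- **Towers.** -/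
theorem tow_triv {N l c m₀ : ℕ}
    {E : Fin (l + 1) → IntermediateField ℂ K} {D : Fin (l + 1) → ℕ} {e : Fin l → ℕ}
    {r s : Fin c → ℕ} {y : Fin (N + 1) → K} {L A : Place ℂ K → ℚ}
    (hy : NormalModel y) (hn : Algebra.trdeg ℂ K = (D (Fin.last l) + ∑ j, r j : ℕ))
    (hK : TorsionCanonical y (D (Fin.last l) + ∑ j, r j) m₀) (hL : Effective y L)
    (hA : Effective y A)
    (hT : IsTower (Relevant y (D (Fin.last l) + ∑ j, r j) L L A) (fun _ => 0) E D e e)
    {w : ∀ j, Fin (s j) → ℚ}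
    (hF : Fibres y (D (Fin.last l) + ∑ j, r j) L
      (Relevant y (D (Fin.last l) + ∑ j, r j) L L A) (E (Fin.last l)) r s w)
    (hbase : ∀ lam' : ℕ, HasForms (D 0 + (∑ i, e i + ∑ j, r j))
      (Relevant y (D (Fin.last l) + ∑ j, r j) L L A)
      (fun _ => 0) (E 0) (∑ i, e i + ∑ j, r j) lam' →
      KodairaGe (D 0 + (∑ i, e i + ∑ j, r j))
        (Relevant y (D (Fin.last l) + ∑ j, r j) L L A)
        (fun _ => 0) (D 0 + lam')) :
    Abundance y (D (Fin.last l) + ∑ j, r j) L L (D (Fin.last l)) r s w := by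
  have h0 : ∀ P ∈ Relevant y (D (Fin.last l) + ∑ j, r j) L L A,
      (fun _ : Place ℂ K => (0 : ℝ)) P = (L P : ℝ) := fun P hP => by
    rw [rel_zero hP, Rat.cast_zero]
  refine OJ.tow_ab ⟨hy, hn, hL⟩ hL hA (psef_of_torsion hK hA) (tower_congr h0 hT)
    (fun _ => rfl) ?_ fun lam' h1 => ?_
  · obtain ⟨hw, K', _, _, _, _, _, B, u, hB, hu, hH, hC⟩ := hF
    exact ⟨hw, K', _, _, _, _, ‹_›, B, u, hB, hu, fun P hP => hH P hP.1, hC⟩
  · refine kod_congr h0 (hbase lam' (h1.mono fun P hP => ?_))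
    unfold hor
    split_ifs
    · exact (h0 P hP).ge
    · exact le_rfl

end Pool.Agent.X180.OK
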