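import Pool.Agent.X180.OK.Pair

/-!
Divisors on varieties with torsion canonical class.
-/

set_option autoImplicit false
set_option linter.overlappingInstances false

open FF Pool.Agent.W602.GT Pool.Agent.Y172

namespace Pool.Agent.X180.OK

variable {K : Type} [Field K] [Algebra ℂ K] {N n : ℕ}

theorem of_abundance_tors {y : Fin (N + 1) → K} {L : Place ℂ K → ℚ} {p c : ℕ} {r s : Fin c → ℕ}
    {w : ∀ j, Fin (s j) → ℚ} (h : OP.Abundance y n L L p r s w) :
    (∀ j, (r j + 1 : ℚ) ≤ ∑ i, w j i) ∧ ∀ L', SameSupport y L L' →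
      kodairaDim y n L' = ((p + OP.big r s w : ℕ) : WithBot ℕ) ∧
      ∀ A, Effective y A → Integral y A →
        numericalDim y n L' A = ((p + OP.big r s w : ℕ) : EReal) := by
  refine ⟨h.1, fun L' hL' => ?_⟩
  exact h.2 L' fun P hP =>
    ⟨fun h0 => by rw [h0]; exact (hL' P hP).1 h0, fun h0 => by
      rw [sub_self]; exact (hL' P hP).2 h0⟩

end Pool.Agent.X180.OK
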