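import Pool.Agent.X180.OK.Defs
import Pool.Agent.Y172.Dim
import Pool.Agent.Y172.Cov3
import Pool.Agent.X180.OP.AbDefs

/-!
Varieties with trivial canonical class: sections of `m K_X + D` and of `D`.
-/

set_option autoImplicit false
set_option linter.overlappingInstances false

open FF Pool.Agent.W602.GT Pool.Agent.Y172

namespace Pool.Agent.X180.OK

variable {K : Type} [Field K] [Algebra ℂ K] {N n : ℕ}

theorem pow_pluri {m₀ : ℕ} {η : (Fin n → Derivation ℂ K K) → K} (h : IsPluri m₀ η) (t : ℕ) :
    IsPluri (t * m₀) (fun E => η E ^ t) := by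
  intro A D
  change η _ ^ t = _ * η D ^ t
  rw [h A D, mul_pow, ← pow_mul, mul_comm m₀ t]

/-- the sections of `m K_X + D` are the products of `η ^ m` and the sections of `D` -/
theorem h0_eq_l {y : Fin (N + 1) → K} (hn : Algebra.trdeg ℂ K = n)
    (hK : TorsionCanonical y n 1) (m : ℕ) (D : Place ℂ K → ℚ) : h0 y n m D = l y D := by
  obtain ⟨-, η, hη, hη0, hηo⟩ := hK
  obtain ⟨t, Et, ht, hEt⟩ := exists_crd hn
  have hE0 : η Et ≠ 0 := by
    intro h0
    apply hη0
    funext E
    rw [pluri_coord ht hEt hη E, h0, mul_zero]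
    rfl
  obtain ⟨Φ, hΦ⟩ : ∃ Φ : K →ₗ[ℂ] ((Fin n → Derivation ℂ K K) → K),
      ∀ f E, Φ f E = f * η E ^ m := by
    refine ⟨{ toFun := fun f E => f * η E ^ m, map_add' := ?_, map_smul' := ?_ }, fun _ _ => rfl⟩
    · intro f g
      funext E
      change (f + g) * η E ^ m = f * η E ^ m + g * η E ^ m
      ring
    · intro c f
      funext E
      change (c • f) * η E ^ m = c • (f * η E ^ m)
      rw [smul_mul_assoc]
  have hinj : Function.Injective Φ := by
    intro f g hfg
    have h1 := congrFun hfg Et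
    rw [hΦ, hΦ] at h1
    exact mul_right_cancel₀ (pow_ne_zero _ hE0) h1
  have himg : {ω | IsSection y n m D ω} =
      Φ '' {f : K | f = 0 ∨ ∀ P, IsPrimeDivisor y P → -(D P) ≤ ((P.ord f : ℤ) : ℚ)} := by
    ext ω
    constructor
    · rintro ⟨h1, h2⟩
      refine ⟨ω Et / η Et ^ m, ?_, ?_⟩
      · by_cases h0 : ω Et = 0
        · left
          rw [h0, zero_div]
        right
        intro P hP
        obtain ⟨-, E, hE, h3, h4⟩ := hηo P hP
        have h5 : ω E ≠ 0 ∧ ω E = (ω Et / η Et ^ m) * η E ^ m := by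
          have e1 := pluri_coord ht hEt h1 E
          have e2 := pluri_coord ht hEt hη E
          have hd : (Matrix.of fun i j => (E i) (t j)).det ≠ 0 := by
            intro hd
            apply h3
            rw [e2, hd]
            simp
          refine ⟨?_, ?_⟩
          · rw [e1]
            exact mul_ne_zero (pow_ne_zero _ hd) h0
          · rw [e1, e2]
            have := pow_ne_zero m hE0
            field_simp
            ring
        rcases h2 P hP E hE with h6 | h6
        · exact absurd h6 h5.1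
        have h7 : P.ord (η E) = 0 := by exact_mod_cast h4
        rw [h5.2, P.ord_mul (div_ne_zero h0 (pow_ne_zero _ hE0)) (pow_ne_zero _ h3),
          P.ord_pow, h7, mul_zero, add_zero] at h6
        exact h6
      · funext E
        rw [hΦ, pluri_coord ht hEt h1 E, pluri_coord ht hEt hη E]
        have := pow_ne_zero m hE0
        field_simp
        ring
    · rintro ⟨f, hf, rfl⟩
      refine ⟨fun A E => ?_, fun P hP E hE => ?_⟩
      · rw [hΦ, hΦ, hη A E]
        ring
      · rw [hΦ]
        rcases hf with hf | hf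
        · left
          rw [hf, zero_mul]
        by_cases hf0 : f = 0
        · left
          rw [hf0, zero_mul]
        rcases (hηo P hP).1 E hE with h1 | h1
        · by_cases hm : m = 0
          · right
            rw [hm, pow_zero, mul_one]
            exact hf P hP
          · left
            rw [h1, zero_pow hm, mul_zero]
        · by_cases h3 : η E = 0
          · by_cases hm : m = 0
            · right
              rw [hm, pow_zero, mul_one]
              exact hf P hP
            · left
              rw [h3, zero_pow hm, mul_zero]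
          right
          rw [P.ord_mul hf0 (pow_ne_zero _ h3), P.ord_pow]
          have h4 := hf P hP
          have h5 : (0 : ℤ) ≤ P.ord (η E) := by exact_mod_cast h1
          have h6 : (0 : ℤ) ≤ m * P.ord (η E) := mul_nonneg (Nat.cast_nonneg _) h5
          have h7 : (0 : ℚ) ≤ ((m * P.ord (η E) : ℤ) : ℚ) := by exact_mod_cast h6
          push_cast at h7 ⊢
          linarith
  unfold h0 l
  rw [himg, Submodule.span_image]
  exact LinearEquiv.finrank_eq (Submodule.equivMapOfInjective Φ hinj _).symm

theorem kodaira_eq {y : Fin (N + 1) → K} (hn : Algebra.trdeg ℂ K = n)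
    (hK : TorsionCanonical y n 1) (L : Place ℂ K → ℚ) : kodairaDim y n L = iitakaDim y L := by
  unfold kodairaDim iitakaDim
  simp only [h0_eq_l hn hK]
  by_cases h : ∀ m : ℕ, 1 ≤ m → Integral y (m • L) → l y (m • L) = 0
  · have h' : ∀ m : ℕ, 1 ≤ m → Integral y (m • L) → h0 y n m (m • L) = 0 := by
      intro m hm hi
      rw [h0_eq_l hn hK]
      exact h m hm hi
    rw [if_pos h, if_pos h']
  · have h' : ¬ ∀ m : ℕ, 1 ≤ m → Integral y (m • L) → h0 y n m (m • L) = 0 := by
      intro h'
      apply h
      intro m hm hi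
      rw [← h0_eq_l hn hK]
      exact h' m hm hi
    rw [if_neg h, if_neg h']

theorem numerical_eq {y : Fin (N + 1) → K} (hn : Algebra.trdeg ℂ K = n)
    (hK : TorsionCanonical y n 1) (L A : Place ℂ K → ℚ) :
    numericalDim y n L A = nuDim y L A := by
  unfold numericalDim nuDim
  simp only [h0_eq_l hn hK]

/-- `K_X` is pseudo-effective -/
theorem psef_of_torsion {y : Fin (N + 1) → K} {m₀ : ℕ} (hK : TorsionCanonical y n m₀)
    {L A : Place ℂ K → ℚ} (hA : Effective y A) : OP.PseudoEffective y n (L - L) A := by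
  obtain ⟨hm, η, hη, hη0, hηo⟩ := hK
  intro m₁
  refine ⟨(m₁ + 1) * m₀, ?_, fun E => η E ^ (m₁ + 1), ⟨pow_pluri hη (m₁ + 1), ?_⟩, ?_⟩
  · nlinarith
  · intro P hP E hE
    rcases (hηo P hP).1 E hE with h1 | h1
    · left
      change η E ^ (m₁ + 1) = 0
      rw [h1, zero_pow (by omega)]
    · right
      have h2 := hA.1 P hP
      have h3 : (0 : ℤ) ≤ P.ord (η E) := by exact_mod_cast h1
      rw [P.ord_pow]
      have h6 : (0 : ℤ) ≤ ((m₁ + 1 : ℕ) : ℤ) * P.ord (η E) := mul_nonneg (Nat.cast_nonneg _) h3
      have h7 : (0 : ℚ) ≤ ((((m₁ + 1 : ℕ) : ℤ) * P.ord (η E) : ℤ) : ℚ) := by exact_mod_cast h6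
      simp only [sub_self, smul_zero, zero_add]
      linarith
  · intro h0
    apply hη0
    funext E
    have h1 := congrFun h0 E
    exact pow_eq_zero_iff (n := m₁ + 1) (by omega) |>.1 h1

/-- **Divisors on varieties with trivial canonical class.** -/
theorem of_abundance {y : Fin (N + 1) → K} (hn : Algebra.trdeg ℂ K = n)
    (hK : TorsionCanonical y n 1) {L : Place ℂ K → ℚ} {p c : ℕ} {r s : Fin c → ℕ}
    {w : ∀ j, Fin (s j) → ℚ} (h : OP.Abundance y n L L p r s w) :
    (∀ j, (r j + 1 : ℚ) ≤ ∑ i, w j i) ∧ ∀ L', SameSupport y L L' →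
      iitakaDim y L' = ((p + OP.big r s w : ℕ) : WithBot ℕ) ∧
      ∀ A, Effective y A → Integral y A →
        nuDim y L' A = ((p + OP.big r s w : ℕ) : EReal) := by
  refine ⟨h.1, fun L' hL' => ?_⟩
  obtain ⟨h1, h2⟩ := h.2 L' fun P hP =>
    ⟨fun h0 => by rw [h0]; exact (hL' P hP).1 h0, fun h0 => by
      rw [sub_self]; exact (hL' P hP).2 h0⟩
  rw [← kodaira_eq hn hK]
  exact ⟨h1, fun A hA hA' => by rw [← numerical_eq hn hK]; exact h2 A hA hA'⟩

end Pool.Agent.X180.OK
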